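import Pool.Agent.Helper883.Dicut.CNuUp

set_option autoImplicit false

namespace Pool.Agent.Results.MP_ef82d1_co.ExactOrder

open Pool.Agent.Helper883.Dicut

/-- The exact order of magnitude of `c_ν - 1/4` is `ν^(-2/3)`. -/
theorem result (ν : ℕ) (hν : 2 ≤ ν) :
    1 / 4 + 1 / 32 * (ν : ℝ) ^ (-(2:ℝ) / 3) ≤ cNu ν ∧
      cNu ν ≤ 1 / 4 + 75 * (ν : ℝ) ^ (-(2:ℝ) / 3) :=
  ⟨cNu_ge hν, cNu_le_main hν⟩

end Pool.Agent.Results.MP_ef82d1_co.ExactOrder
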